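import Pool.Agent.Y35.VR.Stm

set_option autoImplicit false

/-!
Project VR (MP_61a31f_al), job VR-DIV.
-/

namespace Pool.Agent.Y267.VR

open Pool.Agent.Y35.VR

/-- The reduction of a homomorphism to `ℤ` modulo `l`. -/
def redHom {G : Type} [Group G] (χ : G →* Zz) (l : ℕ) : G →* Multiplicative (ZMod l) :=
  (AddMonoidHom.toMultiplicative (Int.castAddHom (ZMod l))).comp χ

theorem mem_ker_redHom {G : Type} [Group G] (χ : G →* Zz) (l : ℕ) (n : G) :
    n ∈ (redHom χ l).ker ↔ (l : ℤ) ∣ Multiplicative.toAdd (χ n) := by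
  rw [MonoidHom.mem_ker]
  have h : redHom χ l n = Multiplicative.ofAdd (((Multiplicative.toAdd (χ n) : ℤ) : ZMod l)) := rfl
  rw [h, ← ZMod.intCast_zmod_eq_zero_iff_dvd]
  exact ofAdd_eq_one

theorem finiteIndex_ker_redHom {G : Type} [Group G] (χ : G →* Zz) (l : ℕ) (hl : 0 < l) :
    (redHom χ l).ker.FiniteIndex := by
  have : NeZero l := ⟨hl.ne'⟩
  have : Finite (Multiplicative (ZMod l)) := inferInstanceAs (Finite (ZMod l))
  infer_instance

/-- A generator of the ideal spanned by a family of integers. -/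
theorem exists_gcd {Y : Type} (a : Y → ℤ) (y0 : Y) (h0 : a y0 ≠ 0) :
    ∃ c : ℕ, 0 < c ∧ (∀ y, (c : ℤ) ∣ a y) ∧
      ∀ t l : ℤ, (∀ y, l ∣ t * a y) → l ∣ t * c := by
  obtain ⟨c, hc⟩ := Int.subgroup_cyclic (AddSubgroup.closure (Set.range a))
  have h1 : ∀ y, c ∣ a y := by
    intro y
    have : a y ∈ AddSubgroup.closure (Set.range a) := AddSubgroup.subset_closure ⟨y, rfl⟩
    rw [hc, ← AddSubgroup.zmultiples_eq_closure, Int.mem_zmultiples_iff] at this
    exact this
  have h2 : c ∈ AddSubgroup.closure (Set.range a) := by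
    rw [hc]
    exact AddSubgroup.subset_closure rfl
  refine ⟨c.natAbs, ?_, ?_, ?_⟩
  · rw [Int.natAbs_pos]
    rintro rfl
    exact h0 (Int.zero_dvd.1 (h1 y0))
  · intro y
    exact Int.natAbs_dvd.2 (h1 y)
  · intro t l ht
    have h3 : l ∣ t * c := by
      refine AddSubgroup.closure_induction (p := fun v _ => l ∣ t * v) ?_ ?_ ?_ ?_ h2
      · rintro _ ⟨y, rfl⟩
        exact ht y
      · simp
      · intro x y _ _ hx hy
        rw [mul_add]
        exact dvd_add hx hy
      · intro x _ hx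
        rw [mul_neg]
        exact (dvd_neg).2 hx
    rcases Int.natAbs_eq c with h | h
    · rw [← h]; exact h3
    · have : t * (c.natAbs : ℤ) = -(t * c) := by
        rw [h]; simp
      rw [this]
      exact (dvd_neg).2 h3

/-- Normal subgroup of finite index whose preimage is inside `⟨r⟩`. -/
theorem exists_P2 (h2 : S_SEP) (P R : Type) [Group P] [Group R] (hP : VRC P) (φ : R →* P)
    (hφ : Function.Injective φ) (r : R) (hr : (Subgroup.zpowers r).FiniteIndex)
    (P0 : Subgroup P) (hn : P0.Normal) (hf : P0.FiniteIndex) :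
    ∃ P2 : Subgroup P, P2.Normal ∧ P2.FiniteIndex ∧ P2 ≤ P0 ∧
      ∀ x : R, φ x ∈ P2 → x ∈ Subgroup.zpowers r := by
  classical
  have key : ∀ x : R, ∃ M : Subgroup P, M.Normal ∧ M.FiniteIndex ∧
      (x ∉ Subgroup.zpowers r → ∀ j : ℤ, φ x * (φ r) ^ j ∉ M) := by
    intro x
    by_cases hx : x ∈ Subgroup.zpowers r
    · exact ⟨⊤, inferInstance, inferInstance, fun h => (h hx).elim⟩
    · obtain ⟨M, hM1, hM2, hM3⟩ := h2 P Zz hP (zpowersHom P (φ r))
        ⟨Multiplicative.ofAdd 1, by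
          have : Subgroup.zpowers (Multiplicative.ofAdd (1 : ℤ)) = ⊤ := by
            rw [Subgroup.eq_top_iff']
            intro z
            refine Subgroup.mem_zpowers_iff.2 ⟨Multiplicative.toAdd z, ?_⟩
            rw [← ofAdd_zsmul]
            simp
          rw [this]
          infer_instance⟩ (φ x) (by
          intro z hz
          apply hx
          refine Subgroup.mem_zpowers_iff.2 ⟨Multiplicative.toAdd z, ?_⟩
          apply hφ
          rw [map_zpow, ← hz, zpowersHom_apply])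
      refine ⟨M, hM1, hM2, fun _ j hj => ?_⟩
      have h3 := hM3 (Multiplicative.ofAdd (-j))
      apply h3
      rw [zpowersHom_apply]
      have := hM1.conj_mem _ hj ((φ r) ^ j)
      have e : (φ r) ^ j * (φ x * (φ r) ^ j) * ((φ r) ^ j)⁻¹
          = ((φ r) ^ (Multiplicative.toAdd (Multiplicative.ofAdd (-j))))⁻¹ * φ x := by
        simp [mul_assoc]
      rw [← e]
      exact this
  choose M hM1 hM2 hM3 using key
  have : Finite (R ⧸ Subgroup.zpowers r) := Subgroup.finite_quotient_of_finiteIndex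
  have : ∀ c : R ⧸ Subgroup.zpowers r, (M c.out).Normal := fun c => hM1 _
  refine ⟨P0 ⊓ ⨅ c : R ⧸ Subgroup.zpowers r, M c.out, ?_, ?_, inf_le_left, ?_⟩
  · have : (⨅ c : R ⧸ Subgroup.zpowers r, M c.out).Normal :=
      Subgroup.normal_iInf_normal (fun c => hM1 _)
    infer_instance
  · have : (⨅ c : R ⧸ Subgroup.zpowers r, M c.out).FiniteIndex :=
      Subgroup.finiteIndex_iInf (fun c => hM2 _)
    infer_instance
  · intro x hx
    by_contra hxr
    set c : R ⧸ Subgroup.zpowers r := QuotientGroup.mk x with hc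
    have h5 : φ x ∈ M c.out := by
      have := (Subgroup.mem_inf.1 hx).2
      exact (Subgroup.mem_iInf.1 this) c
    have h6 : (QuotientGroup.mk c.out : R ⧸ Subgroup.zpowers r) = QuotientGroup.mk x :=
      Quotient.out_eq' c
    rw [QuotientGroup.eq] at h6
    obtain ⟨j, hj⟩ := Subgroup.mem_zpowers_iff.1 h6
    have h7 : c.out ∉ Subgroup.zpowers r := by
      intro h8
      apply hxr
      have : x = c.out * (c.out⁻¹ * x) := by group
      rw [this]
      exact Subgroup.mul_mem _ h8 h6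
    apply hM3 _ h7 j
    rw [← map_zpow, ← map_mul, hj]
    have : c.out * (c.out⁻¹ * x) = x := by group
    rw [this]
    exact h5

theorem t_div : S_INF → S_SEP → S_DIV := by
  intro h1 h2 P R _ _ hP φ hφ r hr hinf P0 hn0 hf0
  have hginf : ¬ IsOfFinOrder (φ r) := by
    rw [hφ.isOfFinOrder_iff]
    exact hinf
  obtain ⟨N, χ, hN1, hN2, m0, hm, hm0, hχ⟩ := h1 P hP (φ r) hginf
  obtain ⟨P2, hP1, hP2, hP3, hP4⟩ := exists_P2 h2 P R hP φ hφ r hr (P0 ⊓ N)
    (by have := hn0; have := hN1; infer_instance) (by infer_instance)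
  -- the least positive power in `P2`
  have hex : ∃ s : ℕ, 0 < s ∧ (φ r) ^ s ∈ P2 := by
    obtain ⟨n, hn, _, h⟩ := Subgroup.exists_pow_mem_of_index_ne_zero hP2.index_ne_zero (φ r)
    exact ⟨n, hn, h⟩
  classical
  set s := Nat.find hex with hs
  have hs1 : 0 < s := (Nat.find_spec hex).1
  have hs2 : (φ r) ^ s ∈ P2 := (Nat.find_spec hex).2
  have hs3 : ∀ j : ℤ, (φ r) ^ j ∈ P2 → (s : ℤ) ∣ j := by
    intro j hj
    by_contra hnd
    have hpos : (0 : ℤ) < s := by exact_mod_cast hs1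
    have h3 : j % s ≠ 0 := fun h => hnd (Int.dvd_of_emod_eq_zero h)
    have h4 : 0 ≤ j % s := Int.emod_nonneg _ hpos.ne'
    have h5 : j % s < s := Int.emod_lt_of_pos _ hpos
    have h6 : (φ r) ^ (j % s) ∈ P2 := by
      have e : (φ r) ^ (j % s) = (φ r) ^ j * (((φ r) ^ s) ^ (j / s))⁻¹ := by
        rw [← zpow_natCast, ← zpow_mul, ← zpow_neg, ← zpow_add]
        congr 1
        rw [Int.emod_def]
        ring
      rw [e]
      exact P2.mul_mem hj (P2.inv_mem (P2.zpow_mem hs2 _))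
    obtain ⟨k, hk⟩ := Int.eq_ofNat_of_zero_le h4
    rw [hk] at h3 h5 h6
    rw [zpow_natCast] at h6
    refine Nat.find_min hex (m := k) (by exact_mod_cast h5) ⟨?_, h6⟩
    rcases Nat.eq_zero_or_pos k with h | h
    · exact (h3 (by simp [h])).elim
    · exact h
  have hP2N : P2 ≤ N := fun x hx => (Subgroup.mem_inf.1 (hP3 hx)).2
  have hP20 : P2 ≤ P0 := fun x hx => (Subgroup.mem_inf.1 (hP3 hx)).1
  have hcj : ∀ y : P, y * (φ r) ^ s * y⁻¹ ∈ N := fun y => hP2N (hP1.conj_mem _ hs2 y)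
  set a : P → ℤ := fun y => Multiplicative.toAdd (χ ⟨y * (φ r) ^ s * y⁻¹, hcj y⟩) with ha
  have ha1 : a 1 ≠ 0 := by
    intro h
    have e1 : χ ⟨(φ r) ^ m0, hm⟩ ^ s = χ ⟨1 * (φ r) ^ s * 1⁻¹, hcj 1⟩ ^ m0 := by
      rw [← map_pow χ, ← map_pow χ]
      congr 1
      apply Subtype.ext
      simp [← pow_mul, mul_comm]
    have e2 := congrArg Multiplicative.toAdd e1
    rw [toAdd_pow, toAdd_pow] at e2
    change _ = m0 • a 1 at e2
    rw [h, smul_zero] at e2
    have e3 : Multiplicative.toAdd (χ ⟨(φ r) ^ m0, hm⟩) = 0 := by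
      rcases (smul_eq_zero.1 e2) with h | h
      · exact (hs1.ne' h).elim
      · exact h
    exact hχ (toAdd_eq_zero.1 e3)
  obtain ⟨c, hc0, hc1, hc2⟩ := exists_gcd a 1 ha1
  refine ⟨s, hs1, fun m hmpos => ?_⟩
  have hcm : 0 < c * m := Nat.mul_pos hc0 hmpos
  have : (redHom χ (c * m)).ker.FiniteIndex := finiteIndex_ker_redHom χ (c * m) hcm
  set K : Subgroup P := (redHom χ (c * m)).ker.map N.subtype with hK
  have hKf : K.FiniteIndex := by
    constructor
    rw [hK, Subgroup.index_map_subtype]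
    exact mul_ne_zero (Subgroup.FiniteIndex.index_ne_zero) (hN2.index_ne_zero)
  have hKm : ∀ (p : P) (hp : p ∈ N), p ∈ K ↔
      ((c * m : ℕ) : ℤ) ∣ Multiplicative.toAdd (χ ⟨p, hp⟩) := by
    intro p hp
    rw [hK, Subgroup.mem_map, ← mem_ker_redHom]
    constructor
    · rintro ⟨x, hx, hxp⟩
      have : x = ⟨p, hp⟩ := Subtype.ext hxp
      rw [← this]
      exact hx
    · intro h
      exact ⟨_, h, rfl⟩
  refine ⟨(P2 ⊓ K).normalCore, inferInstance, inferInstance, ?_, ?_⟩
  · exact (Subgroup.normalCore_le _).trans (inf_le_left.trans hP20)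
  · intro x
    -- the values on powers
    have hval : ∀ (j : ℤ) (y : P) (h : y * ((φ r) ^ s) ^ j * y⁻¹ ∈ N),
        Multiplicative.toAdd (χ ⟨y * ((φ r) ^ s) ^ j * y⁻¹, h⟩) = j * a y := by
      intro j y h
      have e : (⟨y * ((φ r) ^ s) ^ j * y⁻¹, h⟩ : N) = ⟨y * (φ r) ^ s * y⁻¹, hcj y⟩ ^ j := by
        apply Subtype.ext
        simp [conj_zpow]
      rw [e, map_zpow, toAdd_zpow]
      simp [ha]
    have hmem : ∀ j : ℤ, ((φ r) ^ s) ^ j ∈ (P2 ⊓ K).normalCore ↔ (m : ℤ) ∣ j := by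
      intro j
      have h3 : ∀ y : P, y * ((φ r) ^ s) ^ j * y⁻¹ ∈ P2 := fun y =>
        hP1.conj_mem _ (P2.zpow_mem hs2 _) y
      have h4 : ∀ y : P, y * ((φ r) ^ s) ^ j * y⁻¹ ∈ (P2 ⊓ K) ↔
          ((c * m : ℕ) : ℤ) ∣ j * a y := by
        intro y
        rw [Subgroup.mem_inf, hKm _ (hP2N (h3 y)), hval j y]
        exact ⟨fun h => h.2, fun h => ⟨h3 y, h⟩⟩
      change (∀ y : P, y * ((φ r) ^ s) ^ j * y⁻¹ ∈ (P2 ⊓ K)) ↔ _
      simp only [h4]
      have hc' : (c : ℤ) ≠ 0 := by exact_mod_cast hc0.ne'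
      constructor
      · intro h
        have := hc2 j _ h
        push_cast at this
        rw [mul_comm j] at this
        exact (mul_dvd_mul_iff_left hc').1 this
      · intro h y
        push_cast
        rw [mul_comm j]
        exact mul_dvd_mul (hc1 y) h
    constructor
    · intro hx
      have h3 : φ x ∈ P2 := (Subgroup.mem_inf.1 (Subgroup.normalCore_le _ hx)).1
      obtain ⟨j, hj⟩ := Subgroup.mem_zpowers_iff.1 (hP4 x h3)
      have h4 : (s : ℤ) ∣ j := by
        apply hs3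
        rw [← map_zpow, hj]
        exact h3
      obtain ⟨k, rfl⟩ := h4
      have h5 : ((φ r) ^ s) ^ k = φ x := by
        rw [← hj, map_zpow, zpow_mul, zpow_natCast]
      rw [← h5, hmem] at hx
      obtain ⟨t, rfl⟩ := hx
      refine Subgroup.mem_zpowers_iff.2 ⟨t, ?_⟩
      rw [← hj, ← zpow_natCast, ← zpow_mul]
      push_cast
      congr 1
      ring
    · intro hx
      obtain ⟨t, ht⟩ := Subgroup.mem_zpowers_iff.1 hx
      have h5 : ((φ r) ^ s) ^ ((m : ℤ) * t) = φ x := by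
        rw [← ht, map_zpow, map_pow, zpow_mul, zpow_natCast, pow_mul]
      rw [← h5, hmem]
      exact dvd_mul_right _ _

end Pool.Agent.Y267.VR
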